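import Mathlib
import Pool.Agent.Lib.MP_70ee11_an.EZ.Asm

/-!
# Wandering subspaces fail in `A²_α` for every `α > 1`

For every real `α > 1` there are a finite set `Z` of nonzero points of the unit disc and a point `b` of the disc
outside `Z` such that, `V` being the (closed, `z`-invariant) space of all functions of `A²_α` that vanish on `Z`, every
function of `V ⊖ zV` vanishes at `b` (an extraneous zero); consequently `V` is not generated by its wandering subspace.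
By a theorem of Shimorin the wandering subspace property holds for `-1 < α ≤ 1`, so the bound `1` is sharp.
-/

set_option autoImplicit false
set_option linter.style.longLine false

open MeasureTheory

namespace Pool.Agent.Results.MP_70ee11_an.EveryAlphaAboveOne

theorem result :
  ∀ α : ℝ, 1 < α →
    ∀ μ : Measure ℂ,
      μ = (volume.restrict (Metric.ball (0 : ℂ) 1)).withDensity
            (fun z : ℂ => ENNReal.ofReal ((1 + α) * (1 - ‖z‖ ^ 2) ^ α / Real.pi)) →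
      ∃ (Z : Finset ℂ) (b : ℂ) (V : Submodule ℂ (Lp ℂ 2 μ)),
        (∀ a ∈ Z, a ∈ Metric.ball (0 : ℂ) 1 ∧ a ≠ 0) ∧ b ∈ Metric.ball (0 : ℂ) 1 ∧ b ∉ Z ∧
        (∀ f : Lp ℂ 2 μ, f ∈ V ↔ ∃ g : ℂ → ℂ,
            DifferentiableOn ℂ g (Metric.ball (0 : ℂ) 1) ∧ (f : ℂ → ℂ) =ᵐ[μ] g ∧ ∀ a ∈ Z, g a = 0) ∧
        IsClosed (V : Set (Lp ℂ 2 μ)) ∧
        (∀ f ∈ V, ∃ g ∈ V, (g : ℂ → ℂ) =ᵐ[μ] fun z => z * f z) ∧
        (∀ w ∈ V,
            (∀ f ∈ V, ∀ g ∈ V, (g : ℂ → ℂ) =ᵐ[μ] (fun z => z * f z) → inner ℂ g w = 0) →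
            ∀ G : ℂ → ℂ, DifferentiableOn ℂ G (Metric.ball (0 : ℂ) 1) → (w : ℂ → ℂ) =ᵐ[μ] G → G b = 0) ∧
        ¬ (V ≤ (Submodule.span ℂ
              {h : Lp ℂ 2 μ | ∃ p : Polynomial ℂ, ∃ w ∈ V,
                (∀ f ∈ V, ∀ g ∈ V,
                    (g : ℂ → ℂ) =ᵐ[μ] (fun z => z * f z) → inner ℂ g w = 0) ∧
                (h : ℂ → ℂ) =ᵐ[μ] fun z => p.eval z * w z}).topologicalClosure) := by
  intro α hα μ hμ
  have hμ' : μ = Pool.Agent.Lib.MP_70ee11_an.mu α := hμ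
  subst hμ'
  obtain ⟨Z, b, hZ, hb, hbZ, h1, h2, h3, h4⟩ := Pool.Agent.Lib.MP_70ee11_an.EZ.main hα
  exact ⟨Z, b, Pool.Agent.Lib.MP_70ee11_an.EZ.VZ α Z, hZ, hb, hbZ, fun f => Iff.rfl, h1, h2, h3, h4⟩

end Pool.Agent.Results.MP_70ee11_an.EveryAlphaAboveOne
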